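import Mathlib
import Pool.Agent.H575R3.GRWExist
import Pool.Agent.Y225.GR.NonAm

/-!
For every dimension `n ≥ 2` there is an infinite, connected, locally finite, non-amenable simple
graph, roughly isometric to the lattice of dimension `n`, with a vertex `o`, such that the greedy
random walk (uniform rule) started at `o` almost surely visits every vertex infinitely often; and
the same for graphs roughly isometric to the Cartesian product of any two infinite connected graphs
of bounded degree. So a non-amenable graph with a recurrent greedy random walk can have the large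
scale geometry of the plane, or of a product of two regular trees.
-/

open MeasureTheory Finset Pool.Agent.H575R3.GRW
open scoped ENNReal

namespace Pool.Agent.Results.MP_4770bc_pr.EveryProductGeometry

/-- The set of edges of `G` with exactly one endpoint in the finite set `S`. -/
def edgeBoundary {V : Type} (G : SimpleGraph V) (S : Finset V) : Set (Sym2 V) :=
  {e | e ∈ G.edgeSet ∧ ∃ v w, v ∈ S ∧ w ∉ S ∧ e = s(v, w)}

/-- `G` is non-amenable: the ratio of the number of edges with exactly one endpoint in `S` to the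
number of elements of `S` is bounded below by a positive constant over finite nonempty `S`. -/
def NonAmenable {V : Type} (G : SimpleGraph V) : Prop :=
  ∃ c : ℝ, 0 < c ∧ ∀ S : Finset V, S.Nonempty →
    c ≤ ((edgeBoundary G S).ncard : ℝ) / (S.card : ℝ)

lemma ncard_edgeBoundary {V : Type} [DecidableEq V] (G : SimpleGraph V) [G.LocallyFinite]
    (S : Finset V) : (edgeBoundary G S).ncard =
      ∑ v ∈ S, ((G.neighborFinset v).filter (fun w => w ∉ S)).card := by
  classical
  set T : Finset ((_ : V) × V) := S.sigma (fun v => (G.neighborFinset v).filter (fun w => w ∉ S))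
    with hT
  have h1 : edgeBoundary G S = ((T.image (fun p => s(p.1, p.2)) : Finset (Sym2 V)) : Set (Sym2 V)) := by
    ext e
    simp only [edgeBoundary, Set.mem_ofPred_eq, Finset.coe_image, Set.mem_image, Finset.mem_coe]
    constructor
    · rintro ⟨he, v, w, hv, hw, rfl⟩
      refine ⟨⟨v, w⟩, ?_, rfl⟩
      rw [hT, Finset.mem_sigma]
      refine ⟨hv, ?_⟩
      simp only [Finset.mem_filter, SimpleGraph.mem_neighborFinset]
      exact ⟨he, hw⟩
    · rintro ⟨⟨v, w⟩, hp, rfl⟩
      rw [hT, Finset.mem_sigma] at hp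
      simp only [Finset.mem_filter, SimpleGraph.mem_neighborFinset] at hp
      exact ⟨hp.2.1, v, w, hp.1, hp.2.2, rfl⟩
  rw [h1, Set.ncard_coe_finset, Finset.card_image_of_injOn, hT, Finset.card_sigma]
  rintro ⟨v, w⟩ hp ⟨v', w'⟩ hp' heq
  rw [hT, Finset.mem_coe, Finset.mem_sigma] at hp hp'
  simp only [Finset.mem_filter] at hp hp'
  simp only [Sym2.eq_iff] at heq
  rcases heq with ⟨rfl, rfl⟩ | ⟨rfl, rfl⟩
  · rfl
  · exact absurd hp.1 hp'.2.2

/-- The distance in the nearest-neighbour graph of the lattice of dimension `n`. -/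
def latticeDist (n : ℕ) (x y : Fin n → ℤ) : ℕ := ∑ i, (x i - y i).natAbs

/-- `G` is roughly isometric to the space `W` with the distance `d`. -/
def RoughlyIsometric {V W : Type} (G : SimpleGraph V) (d : W → W → ℕ) : Prop :=
  ∃ (φ : V → W) (a b c : ℝ), 1 ≤ a ∧ 0 ≤ b ∧ 0 ≤ c ∧
    (∀ x y, a⁻¹ * (G.dist x y : ℝ) - b ≤ (d (φ x) (φ y) : ℝ) ∧
      (d (φ x) (φ y) : ℝ) ≤ a * (G.dist x y : ℝ) + b) ∧
    ∀ z, ∃ x, (d z (φ x) : ℝ) ≤ c

/-- Some infinite, connected, locally finite, non-amenable graph `G` roughly isometric to `(W, d)` has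
a vertex `o` such that the greedy random walk on `G` started at `o` (it exists) almost surely visits
every vertex infinitely often. -/
def HasNonAmenableRecurrentModel {W : Type} (d : W → W → ℕ) : Prop :=
  ∃ (V : Type) (_ : DecidableEq V) (G : SimpleGraph V) (_ : G.LocallyFinite) (o : V),
    Infinite V ∧ G.Connected ∧ NonAmenable G ∧ RoughlyIsometric G d ∧
    (∃ (Ω : Type) (_ : MeasurableSpace Ω) (P : Measure Ω) (X : ℕ → Ω → V), IsGRW G o P X) ∧
    ∀ (Ω : Type) (_ : MeasurableSpace Ω) (P : Measure Ω) (X : ℕ → Ω → V), IsGRW G o P X →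
      P {ω | ∀ v : V, ∀ n, ∃ t, n ≤ t ∧ X t ω = v} = 1

open Pool.Agent.H575R3.Net Pool.Agent.H575R3.ZZ Pool.Agent.Y225.GR in
lemma rough {W : Type} {d : W → W → ℕ} (hd : GM d) {u : Up} {i0 : ℕ} {Pt : ℕ → W}
    (L : LatW d u i0 Pt) : RoughlyIsometric (gr (CZ u)) d := by
  refine ⟨fun v => Pt (bi v), 3, 40002 + 20000 * (i0 : ℝ), 0, by norm_num, by positivity, le_rfl,
    ?_, ?_⟩
  · intro x y
    have h1 := upperD hd L x y
    have h2 := lipD hd L x y
    have h1' : ((gr (CZ u)).dist x y : ℝ) ≤ 2 * (d (Pt (bi x)) (Pt (bi y)) : ℝ) +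
        (40002 + 20000 * (i0 : ℝ)) := by exact_mod_cast h1
    have h2' : (d (Pt (bi x)) (Pt (bi y)) : ℝ) ≤ 3 * ((gr (CZ u)).dist x y : ℝ) := by
      exact_mod_cast h2
    have h3 : (0 : ℝ) ≤ (d (Pt (bi x)) (Pt (bi y)) : ℝ) := by positivity
    have h4 : (0 : ℝ) ≤ (i0 : ℝ) := by positivity
    constructor
    · have : (3 : ℝ)⁻¹ * ((gr (CZ u)).dist x y : ℝ) = ((gr (CZ u)).dist x y : ℝ) / 3 := by ring
      rw [this]
      linarith
    · linarith
  · intro z
    obtain ⟨k, _, hk⟩ := L.s4 z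
    refine ⟨hv u k, ?_⟩
    have h1 : bi (hv u k) = k := bi_hub (hv_val u k)
    show (d z (Pt (bi (hv u k))) : ℝ) ≤ 0
    rw [h1, hk, hd.self]
    norm_num

open Pool.Agent.Y225.GR in
theorem model {W : Type} {d : W → W → ℕ} (hd : GM d) {q : ℕ → W} {M : ℕ}
    (T : Tour d q (DP M)) : HasNonAmenableRecurrentModel d := by
  obtain ⟨u, i0, Pt, L⟩ := exists_latW hd T
  have hconn := Pool.Agent.H575R3.ZZ.connected (u := u)
  refine ⟨Pool.Agent.H575R3.Net.Vx (Pool.Agent.H575R3.ZZ.CZ u), inferInstance,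
    Pool.Agent.H575R3.Net.gr (Pool.Agent.H575R3.ZZ.CZ u), inferInstance, Pool.Agent.H575R3.ZZ.rt u,
    Infinite.of_injective _ (hv_inj (u := u)), hconn, ?_, rough hd L, ?_, ?_⟩
  · refine ⟨1 / 3576, by norm_num, fun S hS => ?_⟩
    have h1 := nonamen S
    rw [ncard_edgeBoundary]
    have h2 : (0 : ℝ) < S.card := by exact_mod_cast Finset.card_pos.mpr hS
    rw [le_div_iff₀ h2]
    exact h1
  · obtain ⟨m, P, h⟩ := exists_isGRW (Pool.Agent.H575R3.Net.gr (Pool.Agent.H575R3.ZZ.CZ u))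
      Pool.Agent.H575R3.ZZ.nbr_nonempty (Pool.Agent.H575R3.ZZ.rt u)
    exact ⟨_, m, P, _, h⟩
  · intro Ω mΩ P X h
    have hprob : IsProbabilityMeasure P := ⟨h.prob⟩
    have h1 : ∀ᵐ ω ∂P, ∀ p : {p : Pool.Agent.H575R3.Net.Vx (Pool.Agent.H575R3.ZZ.CZ u) ×
        Pool.Agent.H575R3.Net.Vx (Pool.Agent.H575R3.ZZ.CZ u) //
        (Pool.Agent.H575R3.Net.gr (Pool.Agent.H575R3.ZZ.CZ u)).Adj p.1 p.2},
        (∀ n, ∃ t, n ≤ t ∧ X t ω = p.1.1) → (∀ n, ∃ t, n ≤ t ∧ X t ω = p.1.2) :=
      ae_all_iff.mpr (fun p => h.io_neighbor p.2)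
    have h2 := Pool.Agent.H575R3.ZZ.recurrent hconn h
    have h3 : ∀ᵐ ω ∂P, ∀ v, ∀ n, ∃ t, n ≤ t ∧ X t ω = v := by
      filter_upwards [h1, h2] with ω q1 q2
      have hwalk : ∀ a w, (Pool.Agent.H575R3.Net.gr (Pool.Agent.H575R3.ZZ.CZ u)).Walk a w →
          (∀ n, ∃ t, n ≤ t ∧ X t ω = a) → (∀ n, ∃ t, n ≤ t ∧ X t ω = w) := by
        intro a w p
        induction p with
        | nil => exact id
        | cons hadj p ih => exact fun hh => ih (q1 ⟨(_, _), hadj⟩ hh)
      intro w
      obtain ⟨p⟩ := hconn.preconnected (Pool.Agent.H575R3.ZZ.rt u) w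
      exact hwalk _ _ p q2
    have h4 : {ω | ∀ v, ∀ n, ∃ t, n ≤ t ∧ X t ω = v} =ᵐ[P] Set.univ :=
      Filter.eventuallyEq_univ.mpr h3
    rw [measure_congr h4]
    exact h.prob

/-- Non-amenable graphs with recurrent greedy random walks exist in the rough isometry class of the
lattice of every dimension `n ≥ 2` and of every product of two infinite connected graphs of bounded
degree. -/
theorem result :
    (∀ n : ℕ, 2 ≤ n → HasNonAmenableRecurrentModel (latticeDist n)) ∧
    ∀ (A B : Type) (GA : SimpleGraph A) (GB : SimpleGraph B) (Δ : ℕ), Infinite A → Infinite B →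
      GA.Connected → GB.Connected → (∀ v, (GA.neighborSet v).encard ≤ Δ) →
      (∀ v, (GB.neighborSet v).encard ≤ Δ) → HasNonAmenableRecurrentModel (GA □ GB).dist := by
  refine ⟨fun n hn => ?_, fun A B GA GB Δ hA hB h1 h2 h3 h4 => ?_⟩
  · obtain ⟨k, rfl⟩ : ∃ k, n = k + 2 := ⟨n - 2, by omega⟩
    obtain ⟨q, M, T⟩ := Pool.Agent.Y225.GR.tour_dk k
    exact model (Pool.Agent.Y225.GR.gm_dk (k + 2)) T
  · obtain ⟨q, T⟩ := Pool.Agent.Y225.GR.tour_box h1 h2 h3 h4
    exact model (Pool.Agent.Y225.GR.gm_dist (h1.boxProd h2)) T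

end Pool.Agent.Results.MP_4770bc_pr.EveryProductGeometry
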